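import Pool.Agent.Y806.NP.Tab

/-!
# MP_1b13b2_co: Nim with a single pass, all heaps but two fixed

Fix all heaps but two, and let `S` be the sum of the fixed heaps. For every size `a` of the first of the
two other heaps there is exactly one size `b` of the second one such that the position with the pass
available is a P-position; `a` and `b` differ by at most `S + 1`; and the set of these pairs `(a, b)` is
additively periodic: from an explicit point `start (S + 1)` on it is invariant under the shift by the vector
`(p, p)`, where `p = period (S + 1)` is explicit too. Both depend on `S` only, not on the number of heaps.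
So the P-positions with given other heaps are described by a finite, computable table. For three heaps one of which has
size at most three the table is given explicitly.

The proof: `b` is the least number that is not excluded by the nim-sum (the pass), by the moves in the
fixed heaps (at most `S` numbers, additively periodic by induction), and by the partners of smaller `a`.
The state (the partners of smaller `a` near `a`) takes only finitely many values.
-/

set_option autoImplicit false

namespace Pool.Agent.Results.MP_1b13b2_co.AdditivePeriodicity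

open Pool.Agent.Results.MP_1b13b2_co.TwoUnitSubsets

/-- the heaps `i` and `j` of `h` are replaced by heaps of sizes `a` and `b` -/
def heaps {n : ℕ} (h : Fin n → ℕ) (i j : Fin n) (a b : ℕ) : Fin n → ℕ :=
  Function.update (Function.update h i a) j b

/-- an explicit period; it is used for `s = S + 1` -/
def period : ℕ → ℕ
  | 0 => 1
  | s + 1 => (2 ^ (3 * s + 3) * period s).factorial

/-- an explicit starting point; it is used for `s = S + 1` -/
def start : ℕ → ℕ
  | 0 => 1
  | s + 1 => start s + 2 ^ (3 * s + 3) * period s + s + 1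

theorem period_eq : ∀ s, period s = Pool.Agent.Y806.NP.pB s
  | 0 => rfl
  | s + 1 => by rw [period, Pool.Agent.Y806.NP.pB, period_eq s]

theorem start_eq : ∀ s, start s = Pool.Agent.Y806.NP.nB s
  | 0 => rfl
  | s + 1 => by rw [start, Pool.Agent.Y806.NP.nB, start_eq s, period_eq s]

/-- the heap beside heaps `0`, `a` -/
def beside0 (a : ℕ) : ℕ := if a = 0 then 0 else if a % 2 = 1 then a + 1 else a - 1

/-- the heap beside heaps `1`, `a` -/
def beside1 (a : ℕ) : ℕ := if a = 0 then 2 else if a = 2 then 0 else a

/-- the heap beside heaps `2`, `a` -/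
def beside2 (a : ℕ) : ℕ :=
  if a < 9 then [1, 0, 2, 5, 7, 3, 8, 4, 6].getD a 0
  else if a % 4 = 1 then a + 3 else if a % 4 = 2 then a + 1 else if a % 4 = 3 then a - 1 else a - 3

/-- the heap beside heaps `3`, `a` -/
def beside3 (a : ℕ) : ℕ :=
  if a < 10 then [4, 3, 5, 1, 0, 2, 7, 6, 9, 8].getD a 0
  else if a % 4 = 2 ∨ a % 4 = 3 then a + 2 else a - 2

/-- **Additive periodicity of Nim with a single pass.** -/
theorem result :
    (∀ (n : ℕ) (h : Fin n → ℕ) (i j : Fin n) (S : ℕ), i ≠ j →
      ∑ l ∈ Finset.univ.filter (fun l => l ≠ i ∧ l ≠ j), h l = S →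
      (∀ a : ℕ, ∃! b : ℕ, IsP (⟨heaps h i j a b, true⟩ : Position n)) ∧
      (∀ a b : ℕ, IsP (⟨heaps h i j a b, true⟩ : Position n) →
        a ≤ b + (S + 1) ∧ b ≤ a + (S + 1)) ∧
      1 ≤ period (S + 1) ∧ ∀ a b : ℕ, start (S + 1) ≤ a →
        (IsP (⟨heaps h i j a b, true⟩ : Position n) ↔
          IsP (⟨heaps h i j (a + period (S + 1)) (b + period (S + 1)), true⟩ : Position n))) ∧
    (∀ a b : ℕ, IsP (⟨![0, a, b], true⟩ : Position 3) ↔ b = beside0 a) ∧
    (∀ a b : ℕ, IsP (⟨![1, a, b], true⟩ : Position 3) ↔ b = beside1 a) ∧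
    (∀ a b : ℕ, IsP (⟨![2, a, b], true⟩ : Position 3) ↔ b = beside2 a) ∧
    (∀ a b : ℕ, IsP (⟨![3, a, b], true⟩ : Position 3) ↔ b = beside3 a) := by
  refine ⟨fun n h i j S hij hS => ⟨fun a => ?_, fun a b hP => ?_, ?_, ?_⟩, fun a b => ?_,
    fun a b => ?_, fun a b => ?_, fun a b => ?_⟩
  · exact Pool.Agent.Y806.NP.existsUnique_b h hij a
  · have h1 := Pool.Agent.Y806.NP.disp h hij a b hP
    have h2 : ∑ l ∈ Pool.Agent.Y806.NP.rest i j, h l = S := hS
    rw [h2] at h1
    omega
  · rw [period_eq]
    exact Pool.Agent.Y806.NP.pB_pos _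
  · rw [period_eq, start_eq]
    exact Pool.Agent.Y806.NP.per_PP hij S h hS
  · rw [← Pool.Agent.Y806.NP.pos_three 0 a b]
    exact Pool.Agent.Y806.NP.tab0 a b
  · rw [← Pool.Agent.Y806.NP.pos_three 1 a b]
    exact Pool.Agent.Y806.NP.tab1 a b
  · rw [← Pool.Agent.Y806.NP.pos_three 2 a b]
    exact Pool.Agent.Y806.NP.tab2 a b
  · rw [← Pool.Agent.Y806.NP.pos_three 3 a b]
    exact Pool.Agent.Y806.NP.tab3 a b

end Pool.Agent.Results.MP_1b13b2_co.AdditivePeriodicity
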